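import Pool.Agent.W723.MC.Fin

/-!
There is a transcendental entire function with a multiply connected wandering domain that has a
bounded complementary component of type 2 (its interior is nonempty and is a union of Fatou
components).
-/

set_option autoImplicit false

open Pool.Agent.H384R2.Fatou

/-- Existence of a complementary component of type 2. -/
theorem Pool.Agent.Results.MP_0e64fd_an.TypeTwo.result :
    ∃ f : ℂ → ℂ, Differentiable ℂ f ∧ (¬ ∃ p : Polynomial ℂ, ∀ z, f z = p.eval z) ∧
      ∃ U : Set ℂ, (∃ z ∈ FatouSet f, U = FatouComponent f z) ∧ IsWanderingDomain f U ∧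
        ¬ IsConnected Uᶜ ∧
        ∃ K : Set ℂ, (∃ z ∈ Uᶜ, K = connectedComponentIn Uᶜ z) ∧
          Bornology.IsBounded K ∧ (interior K).Nonempty ∧
          ∃ 𝒱 : Set (Set ℂ), (∀ V ∈ 𝒱, ∃ z ∈ FatouSet f, V = FatouComponent f z) ∧
            interior K = ⋃₀ 𝒱 :=
  Pool.Agent.W723.MC.main
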